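import Pool.Agent.Lib.MP_e04167_ag.Curve
import Pool.Agent.Lib.MP_e04167_ag.Disc

/-!
# Affine curves of low genus in `SG_n`

For every `n > 4` there is a connected non-singular affine algebraic curve `Γ` (a plane curve) of
genus `⌊(n - 1) / 2⌋`, which is smaller than `(n - 1) (n - 2) / 2`, and an injective, hence
non-constant, holomorphic (even polynomial) map `Γ → SG_n`.

With `d = ⌊n / 2⌋`, the curve is `d² t^e (a² - 4 t^d) = 1`, with `e = d - 1` for even `n` and
`e = d + 1` for odd `n`, and the map sends `(a, t)` to the polynomial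
`λ ^ (n - 2 d) (λ ^ (2 d) + a λ ^ d + t ^ d)`, whose discriminant is
`(d² t^e (a² - 4 t^d)) ^ d = 1`.
-/

open Polynomial Topology

namespace Pool.Agent.Results.MP_e04167_ag.LowGenusCurves

open Pool.Agent.MP_e04167_ag

lemma analyticAt_eval {m n : ℕ} (Z : Fin n → MvPolynomial (Fin m) ℂ) (x : Fin m → ℂ) :
    AnalyticAt ℂ (fun (y : Fin m → ℂ) (j : Fin n) => MvPolynomial.eval y (Z j)) x := by
  have key : ∀ P : MvPolynomial (Fin m) ℂ,
      AnalyticAt ℂ (fun y : Fin m → ℂ => MvPolynomial.eval y P) x := by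
    intro P
    induction P using MvPolynomial.induction_on with
    | C c =>
      simp only [MvPolynomial.eval_C]
      exact analyticAt_const
    | add p q hp hq =>
      simp only [map_add]
      exact hp.add hq
    | mul_X p i hp =>
      have h1 : AnalyticAt ℂ (fun y : Fin m → ℂ => y i) x :=
        (ContinuousLinearMap.proj (R := ℂ) (φ := fun _ : Fin m => ℂ) i).analyticAt x
      simp only [map_mul, MvPolynomial.eval_X]
      exact hp.mul h1
  exact AnalyticAt.pi fun j => key (Z j)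

/-- The map as polynomials. -/
noncomputable def coords (n d : ℕ) : Fin n → MvPolynomial (Fin 2) ℂ :=
  fun j => if (j : ℕ) + 1 = d then MvPolynomial.X 0
    else if (j : ℕ) + 1 = 2 * d then MvPolynomial.X 1 ^ d else 0

lemma eval_coords (n d : ℕ) (p : Fin 2 → ℂ) :
    (fun j => MvPolynomial.eval p (coords n d j)) = trinomialCoeff n d (p 0) (p 1 ^ d) := by
  funext j
  unfold coords trinomialCoeff
  split_ifs <;> simp

lemma main {n d e g : ℕ} (h : Good d e) (hn : 2 * d ≤ n) (hg : 2 * g + 1 = d + e)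
    (he : e + 1 = d ∨ e = d + 1)
    (hmem : ∀ a t : ℂ, (d : ℂ) ^ 2 * t ^ e * (a ^ 2 - 4 * t ^ d) = 1 →
      trinomialCoeff n d a (t ^ d) ∈ SG n) :
    ∃ Γ : AffineCurve 2, Γ.genus = (g : Cardinal) ∧
      ∃ φ : Γ.points → (Fin n → ℂ), Γ.IsHolomorphic φ ∧
        (∃ Z : Fin n → MvPolynomial (Fin 2) ℂ, ∀ p j, φ p j = MvPolynomial.eval (p : Fin 2 → ℂ) (Z j)) ∧
        (∀ p, φ p ∈ SG n) ∧ Function.Injective φ ∧ ∃ p q, φ p ≠ φ q := by
  have hd := h.hd
  have hinj : Function.Injective (fun (p : (theCurve h).points) (j : Fin n) =>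
      MvPolynomial.eval (p : Fin 2 → ℂ) (coords n d j)) := by
    intro p q hpq
    have e1 := eval_coords n d p
    have e2 := eval_coords n d q
    have hpq' : (fun j => MvPolynomial.eval (p : Fin 2 → ℂ) (coords n d j)) =
      (fun j => MvPolynomial.eval (q : Fin 2 → ℂ) (coords n d j)) := hpq
    rw [e1, e2] at hpq'
    have f1 := congrFun hpq' ⟨d - 1, by omega⟩
    have f2 := congrFun hpq' ⟨2 * d - 1, by omega⟩
    unfold trinomialCoeff at f1 f2
    simp only at f1 f2
    rw [if_pos (by omega), if_pos (by omega)] at f1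
    rw [if_neg (by omega), if_pos (by omega), if_neg (by omega), if_pos (by omega)] at f2
    have mp := mem_points h p.2
    have mq := mem_points h q.2
    have tp : (p : Fin 2 → ℂ) 1 ≠ 0 := t_ne_zero h p (p.2 _ (Ideal.mem_span_singleton_self _))
    have tq : (q : Fin 2 → ℂ) 1 ≠ 0 := t_ne_zero h q (q.2 _ (Ideal.mem_span_singleton_self _))
    have hdn := h.d_ne
    have te : (p : Fin 2 → ℂ) 1 ^ e = (q : Fin 2 → ℂ) 1 ^ e := by
      rw [← f1, ← f2] at mq
      have hne : (d : ℂ) ^ 2 * ((p : Fin 2 → ℂ) 0 ^ 2 - 4 * (p : Fin 2 → ℂ) 1 ^ d) ≠ 0 := by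
        intro h0
        have : (d : ℂ) ^ 2 * (p : Fin 2 → ℂ) 1 ^ e *
          ((p : Fin 2 → ℂ) 0 ^ 2 - 4 * (p : Fin 2 → ℂ) 1 ^ d) = 0 := by
          linear_combination (p : Fin 2 → ℂ) 1 ^ e * h0
        rw [this] at mp
        exact zero_ne_one mp
      apply mul_left_cancel₀ hne
      linear_combination mp - mq
    have t1 : (p : Fin 2 → ℂ) 1 = (q : Fin 2 → ℂ) 1 := by
      rcases he with he | he
      · apply mul_left_cancel₀ (pow_ne_zero e tp)
        rw [← pow_succ, he, f2, te, ← pow_succ, he]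
      · apply mul_left_cancel₀ (pow_ne_zero d tp)
        rw [← pow_succ, ← he, te, f2, ← pow_succ, ← he]
    apply Subtype.ext
    funext i
    fin_cases i
    · exact f1
    · exact t1
  refine ⟨theCurve h, genus_theCurve h hg,
    fun p j => MvPolynomial.eval (p : Fin 2 → ℂ) (coords n d j), ?_, ⟨coords n d, fun _ _ => rfl⟩,
    ?_, hinj, ?_⟩
  · intro p
    exact ⟨fun y j => MvPolynomial.eval y (coords n d j), analyticAt_eval _ _,
      Filter.Eventually.of_forall fun _ => rfl⟩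
  · intro p
    have e1 := eval_coords n d p
    change (fun j => MvPolynomial.eval (p : Fin 2 → ℂ) (coords n d j)) ∈ SG n
    rw [e1]
    exact hmem _ _ (mem_points h p.2)
  · obtain ⟨p, hp, hp1⟩ := exists_point h (t := 1) one_ne_zero
    obtain ⟨q, hq, hq1⟩ := exists_point h (t := 2) two_ne_zero
    refine ⟨⟨p, hp⟩, ⟨q, hq⟩, fun hpq => ?_⟩
    have := congrArg Subtype.val (hinj hpq)
    simp only at this
    rw [← this, hp1] at hq1
    norm_num at hq1

/-- For every `n > 4` there are a connected non-singular affine algebraic curve `Γ ⊂ ℂ²` of genus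
`⌊(n - 1) / 2⌋ < (n - 1) (n - 2) / 2` and an injective (in particular non-constant) holomorphic
map `Γ → SG_n`, given by polynomials. -/
theorem result (n : ℕ) (hn : 4 < n) :
    ∃ Γ : AffineCurve 2,
      Γ.genus = (((n - 1) / 2 : ℕ) : Cardinal) ∧ (n - 1) / 2 < (n - 1) * (n - 2) / 2 ∧
      ∃ φ : Γ.points → (Fin n → ℂ), Γ.IsHolomorphic φ ∧
        (∃ Z : Fin n → MvPolynomial (Fin 2) ℂ,
          ∀ p j, φ p j = MvPolynomial.eval (p : Fin 2 → ℂ) (Z j)) ∧
        (∀ p, φ p ∈ SG n) ∧ Function.Injective φ ∧ ∃ p q, φ p ≠ φ q := by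
  have hlt : (n - 1) / 2 < (n - 1) * (n - 2) / 2 := by
    obtain ⟨k, rfl⟩ : ∃ k, n = k + 5 := ⟨n - 5, by omega⟩
    have h1 : (k + 5 - 1) * (k + 5 - 2) = (k + 4) * (k + 3) := by congr 1
    rw [h1]
    have h2 : (k + 4) * (k + 3) = k * k + 7 * k + 12 := by ring
    rw [h2]
    have h3 : 0 ≤ k * k := Nat.zero_le _
    omega
  rcases Nat.even_or_odd n with hpar | hpar
  · obtain ⟨d, hd⟩ := hpar
    have hn2 : n = 2 * d := by omega
    have hgood : Good d (d - 1) := ⟨by omega, by omega, by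
      rcases Nat.even_or_odd d with h1 | h1
      · right
        obtain ⟨k, hk⟩ := h1
        exact ⟨⟨k - 1, by omega⟩, ⟨k, hk⟩⟩
      · left
        obtain ⟨k, hk⟩ := h1
        exact ⟨⟨k, by omega⟩, ⟨k, hk⟩⟩⟩
    obtain ⟨Γ, h1, h2⟩ := main (n := n) (g := (n - 1) / 2) hgood (by omega) (by omega)
      (Or.inl (by omega)) (fun a t hat => by
        rw [hn2]; exact trinomial_mem_SG_even d (by omega) a t hat)
    exact ⟨Γ, h1, hlt, h2⟩
  · obtain ⟨d, hd⟩ := hpar
    have hgood : Good d (d + 1) := ⟨by omega, by omega, by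
      rcases Nat.even_or_odd d with h1 | h1
      · right
        obtain ⟨k, hk⟩ := h1
        exact ⟨⟨k, by omega⟩, ⟨k, hk⟩⟩
      · left
        obtain ⟨k, hk⟩ := h1
        exact ⟨⟨k + 1, by omega⟩, ⟨k, hk⟩⟩⟩
    obtain ⟨Γ, h1, h2⟩ := main (n := n) (g := (n - 1) / 2) hgood (by omega) (by omega)
      (Or.inr rfl) (fun a t hat => by
        rw [hd]; exact trinomial_mem_SG_odd d (by omega) a t hat)
    exact ⟨Γ, h1, hlt, h2⟩

end Pool.Agent.Results.MP_e04167_ag.LowGenusCurves
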